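import Pool.Agent.Lib.H43V.G1

/-!
# How much interconnection does a `U_{k,2k}`-minor need? (MP_de3a64_co, Q1, partial result)

(1) For `k = 1, 2, 3` a minor isomorphic to `B(G_2^+)` alone forces a `U_{k,2k}`-minor.
(2) For all `n ≥ 1`, `t ≤ n` and `k ≥ min (t + 11) (2 t + 4)` the minors `B(G_n^+)` and `M*(G_n^+)` can
be `t`-interconnected in a matroid without a `U_{k,2k}`-minor.

Proof of (1): contract two opposite rim edges of the wheel `G_2^+`; the other six elements form
`U_{3,6}`.

Proof of (2), `n ≥ 2`: let `M₀` be the direct sum of `B(G_n^+)` and `M*(G_n^+)`, and let `M` be the
matroid whose independent sets are those of `M₀` with at most `r(M₀) - t` elements.  A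
`U_{k,2k}`-minor of `M` gives an independent set `B` and a set `S` of `2 k` further elements such that
in the contraction `M₀ / B` all sets of at most `k` elements of `S` are independent and all
independent subsets of `S` have at most `k + t` elements.  The part of `S` in one of the two
summands has at most `k` elements, so it is independent.

If the other part `S'` lies in the bicircular summand: contracting a loop of a graph deletes its vertex
from all ends, contracting a link identifies its two ends; so every element `y` of `S'` has a set
`e y` of at most two vertices, and a set is independent if and only if it has a system of distinct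
representatives.  By Hall's theorem with deficiency some `Y` in `S'` has `v` vertices and at least
`v + (k - t)` elements.
If `k ≥ t + 11`, then `Y` contains a dependent set with less than half of its elements: suppress the
vertices which are in at most two elements; then a system with `m` vertices and `m + i` elements has at most
`3 i` elements, and deleting the heaviest one costs at most the factor `1 - 1 / (3 i)`; the product
of these factors for `i = 2, …, 11` is less than `1 / 2`.
If `k ≥ 2 t + 4`, delete vertices of smallest degree one by one until `k - 1` are left; at
least `k` elements remain.

If the other part lies in the cographic summand: three fundamental circuits with respect to a largest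
independent set are edge cuts of three vertex sets, which divide the vertex set into eight atoms.  Each
atom with a nonempty cut has more than `k` elements of `S` in its cut, so there are at most three such
atoms; this contradicts that the three cuts are independent.
-/

set_option autoImplicit false

namespace Pool.Agent.Results.MP_de3a64_co.Interconnection

open H43V

universe u

/-- (1) For `k = 1, 2, 3` every matroid with a minor isomorphic to `B(G_2^+)` has a
`U_{k,2k}`-minor.  (2) For all `n ≥ 1`, `t ≤ n` and all `k` with `k ≥ 2 t + 4` or `k ≥ t + 11` there is
a finite matroid which has `B(G_n^+)` and `M*(G_n^+)` as `t`-interconnected minors and has no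
`U_{k,2k}`-minor. -/
theorem result :
    (∀ k : ℕ, 1 ≤ k → k ≤ 3 → ∀ (α : Type u) (M : Matroid α),
      HasMinor M (bic (gridPlus 2)) → HasMinor M (unif k (2 * k))) ∧
    (∀ n t k : ℕ, 1 ≤ n → t ≤ n → (2 * t + 4 ≤ k ∨ t + 11 ≤ k) →
      ∃ (α : Type) (M : Matroid α), M.Finite ∧
        InterMinors M (bic (gridPlus n)) (cobic (gridPlus n)) t ∧
        ¬ HasMinor M (unif k (2 * k))) :=
  ⟨fun k hk1 hk3 _ M h => partA M k hk1 hk3 h, fun n t k hn ht hk => partC' n t k hn ht hk⟩

end Pool.Agent.Results.MP_de3a64_co.Interconnection
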